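import Pool.Agent.Q17.Scott.Main

/-!
# Core-free integrally coset equivalent subgroups need not be isomorphic

There are a finite group `Γ` and two core-free subgroups `H`, `K` of `Γ` whose integral permutation
modules `ℤ[Γ/H]` and `ℤ[Γ/K]` are isomorphic, while `H` and `K` are not isomorphic as groups.

The group is the wreath product of the symmetric group of degree four and the automorphism group of
a unimodular `0, 1, -1` matrix of size `203`, extracted from Scott's pair of subgroups of
`PSL(2, 29)`; the subgroups are the stabilizers of a point `(c, x)`, with `c` a labelling of the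
first set of `203` points by four symbols and `x` a point of the first, respectively second, set.
-/

namespace Pool.Agent.Results.MP_997916_al

/-- `H` is core-free in `Γ`: the only normal subgroup of `Γ` contained in `H` is trivial. -/
def IsCoreFree {Γ : Type} [Group Γ] (H : Subgroup Γ) : Prop :=
  ∀ N : Subgroup Γ, N.Normal → N ≤ H → N = ⊥

/-- `H` and `K` are `ℤ`-coset equivalent in `Γ`: the permutation modules `ℤ[Γ/H]` and `ℤ[Γ/K]`
(finitely supported integral functions on the left cosets, with `Γ` acting by left multiplication
on the cosets) are isomorphic, by an additive bijection commuting with the action. -/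
def ZCosetEquivalent {Γ : Type} [Group Γ] (H K : Subgroup Γ) : Prop :=
  ∃ φ : ((Γ ⧸ H) →₀ ℤ) ≃ₗ[ℤ] ((Γ ⧸ K) →₀ ℤ), ∀ (g : Γ) (v : (Γ ⧸ H) →₀ ℤ),
    φ (Finsupp.mapDomain (fun x => g • x) v) = Finsupp.mapDomain (fun x => g • x) (φ v)

/-- There are a finite group and two core-free subgroups that are `ℤ`-coset equivalent and not
isomorphic. -/
theorem CoreFreeNotIsomorphic.result :
    ∃ (Γ : Type) (_ : Group Γ) (_ : Finite Γ) (H K : Subgroup Γ),
      IsCoreFree H ∧ IsCoreFree K ∧ ZCosetEquivalent H K ∧ ¬ Nonempty (H ≃* K) := by
  obtain ⟨Γ, iG, iF, H, K, hH, hK, hZ, hne⟩ := Q17.Scott.main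
  refine ⟨Γ, iG, iF, H, K, ?_, ?_, hZ, hne⟩
  · intro N hN hle
    rw [eq_bot_iff, ← hH]
    exact (Subgroup.normal_le_normalCore).mpr hle
  · intro N hN hle
    rw [eq_bot_iff, ← hK]
    exact (Subgroup.normal_le_normalCore).mpr hle

end Pool.Agent.Results.MP_997916_al
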